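import Pool.Agent.H.MP_cb6149_al.Chain

namespace Pool.Agent.Results.MP_cb6149_al.FewAut
open Pool.Agent.H.MP_cb6149_al

theorem result (κ : Cardinal.{0}) (hκ : κ.IsRegular) :
    ∃ (G : Type) (_ : Group G), IsEC κ G ∧ Cardinal.mk G = 2 ^ κ ∧ κ < Cardinal.mk G ∧
      Cardinal.mk (MulAut G) ≤ Cardinal.mk G ∧ Cardinal.mk (MulAut G) < 2 ^ Cardinal.mk G := by
  obtain ⟨G, _, h1, h2, h3⟩ := main hκ
  exact ⟨G, _, h1, h2, h2 ▸ Cardinal.cantor κ, h2 ▸ h3, (h3.trans_eq h2.symm).trans_lt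
    (Cardinal.cantor _)⟩

end Pool.Agent.Results.MP_cb6149_al.FewAut
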